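import Pool.Agent.X10.ST.Thin2

set_option autoImplicit false

/-!
# The superposition of few translates of the primes, taken from an arbitrary thin family, has gaps of at most a power of
the logarithm at almost all places

The question asks for a prime in every interval `(n, n + (log n) ^ K]`; it is not even known that almost all `n` have this
property. We shift the set of the primes by `r` members `s (v 1), ..., s (v r)` of an arbitrary family of integers of nearly
minimal additive energy (for example the values of a polynomial, or an arbitrary set of at least `N / (log N) ^ C` integers):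
for almost all choices of the `r` members all `n ≤ N`, with at most `((3/4 + ε) ^ r + (log N) ^ (-U)) N` exceptions, have a
prime in one of the `r` intervals `(n + s (v i), n + s (v i) + (log N) ^ K]`. So `O(log (1 / δ))` translates are enough for
all but `δ N` of the `n`, and `O(log log N)` translates are enough for all but `N / (log N) ^ U` of them.

Proof: a greedy argument, starting from the theorem `MP_711652_nt.ThinTranslates` of the starting files, for the sets of the
`n` that are not yet covered.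
-/

namespace Pool.Agent.Results.MP_711652_nt.FewThinTranslates

open Finset

/-- The additive energy of order `p` of the family `s 1, ..., s x`: the number of the solutions of
`s (v 1) + ... + s (v p) = s (w 1) + ... + s (w p)` with all `v i`, `w i` in `{1, ..., x}`. -/
def energy (p x : ℕ) (s : ℕ → ℤ) : ℕ :=
  (((Fintype.piFinset fun _ : Fin p => Icc 1 x) ×ˢ (Fintype.piFinset fun _ : Fin p => Icc 1 x)).filter
    (fun q => ∑ i, s (q.1 i) = ∑ i, s (q.2 i))).card

open Classical in
/-- The number of the `n` in `{1, ..., N}` such that none of the intervals `(n + t i, n + t i + y]` contains a prime. -/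
noncomputable def missed (N y : ℕ) {r : ℕ} (t : Fin r → ℤ) : ℕ :=
  ((Icc 1 N).filter (fun n : ℕ => ∀ i, ¬ ∃ q : ℕ, q.Prime ∧ (n : ℤ) + t i < q ∧ (q : ℤ) ≤ n + t i + y)).card

open Classical in
/-- The number of the `v` in `{1, ..., x} ^ r` for which all the `s (v i)` are in `{1, ..., N}` and more than `W` of the `n`
in `{1, ..., N}` have no prime in any of the intervals `(n + s (v i), n + s (v i) + y]`. -/
noncomputable def bad (N y x : ℕ) (s : ℕ → ℤ) (W : ℝ) (r : ℕ) : ℕ :=
  ((Fintype.piFinset fun _ : Fin r => Icc 1 x).filter (fun v =>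
    (∀ i, 0 < s (v i) ∧ s (v i) ≤ N) ∧ W < (missed N y (fun i => s (v i)) : ℝ))).card

lemma bad_le (N y x : ℕ) (s : ℕ → ℤ) (q δ : ℝ) (r : ℕ) :
    bad N y x s (N * max (q ^ r) δ) r ≤ (Pool.Agent.X10.ST.badT N y x s q δ r).card := by
  classical
  unfold bad
  apply card_le_card
  intro v hv
  rw [mem_filter] at hv
  unfold Pool.Agent.X10.ST.badT
  rw [mem_filter]
  refine ⟨hv.1, hv.2.1, ?_⟩
  unfold Pool.Agent.X10.ST.thr
  refine hv.2.2.trans_le ?_
  unfold missed
  norm_cast
  apply card_le_card
  intro n hn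
  rw [mem_filter] at hn
  unfold Pool.Agent.X10.ST.missed
  rw [mem_filter]
  refine ⟨hn.1, fun i hi => hn.2 i ?_⟩
  obtain ⟨p, hp, h1, h2⟩ := hi
  have h3 := (hv.2.1 i).1
  have h4 : ((s (v i)).toNat : ℤ) = s (v i) := Int.toNat_of_nonneg h3.le
  refine ⟨p, hp, ?_, ?_⟩
  · beta_reduce
    rw [← h4]
    exact_mod_cast h1
  · beta_reduce
    rw [← h4]
    exact_mod_cast h2

/-- Let `B`, `C`, `U` and `0 < ε ≤ 1 / 4` be fixed.

* For every `p` there are `K` and `N₀` such that for all `N ≥ N₀` the following holds. Let `s 1, ..., s x` be an arbitrary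
  family of integers in `[-B N, B N]` with an additive energy of order `p` of at most `(log N) ^ C` times the minimal
  possible size `x ^ (2 p) / N`. For every `r`, all the `r`-tuples of members of the family which are in `[1, N]`, with at
  most `r x ^ r / (log N) ^ U` exceptions, are such that all the `n ≤ N`, with at most
  `max ((3/4 + ε) ^ r, 1 / (log N) ^ U) N` exceptions, have a prime in one of the intervals
  `(n + t, n + t + ⌈(log N) ^ K⌉]`, where `t` runs through the `r` elements of the tuple.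
* In particular this holds for the values `c + f m`, `m ≤ x`, of a nonconstant polynomial `f` with integer coefficients,
  of degree `d`, if `N / (log N) ^ C ≤ x ^ d ≤ B N` and `|c| ≤ B N`. -/
theorem result (B C U : ℕ) (ε : ℝ) (hε : 0 < ε) (hε1 : ε ≤ 1 / 4) :
    (∀ p : ℕ, ∃ K N₀ : ℕ, ∀ N : ℕ, N₀ ≤ N → ∀ (x : ℕ) (s : ℕ → ℤ), (∀ m ∈ Icc 1 x, |s m| ≤ B * N) →
      (energy p x s : ℝ) * N ≤ Real.log N ^ C * (x : ℝ) ^ (2 * p) → ∀ r : ℕ,
      (bad N ⌈Real.log N ^ K⌉₊ x s (N * max ((3 / 4 + ε) ^ r) (1 / Real.log N ^ U)) r : ℝ) ≤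
        r * (x : ℝ) ^ r / Real.log N ^ U) ∧
    (∀ f : Polynomial ℤ, 1 ≤ f.natDegree → ∃ K N₀ : ℕ, ∀ N : ℕ, N₀ ≤ N → ∀ x : ℕ,
      x ^ f.natDegree ≤ B * N → (N : ℝ) ≤ Real.log N ^ C * (x : ℝ) ^ f.natDegree → ∀ c : ℤ, |c| ≤ B * N → ∀ r : ℕ,
      (bad N ⌈Real.log N ^ K⌉₊ x (fun m => c + f.eval (m : ℤ))
        (N * max ((3 / 4 + ε) ^ r) (1 / Real.log N ^ U)) r : ℝ) ≤ r * (x : ℝ) ^ r / Real.log N ^ U) := by
  refine ⟨fun p => ?_, fun f hd => ?_⟩
  · obtain ⟨K, N₀, h⟩ := Pool.Agent.X10.ST.thin_general p B C U ε hε hε1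
    refine ⟨K, N₀, fun N hN x s hs hE r => ?_⟩
    refine le_trans ?_ (h N hN x s hs hE r)
    exact_mod_cast bad_le N _ x s (3 / 4 + ε) (1 / Real.log N ^ U) r
  · obtain ⟨p, B', hB', N1, h1⟩ := Pool.Agent.TH823.Fam.poly_family f hd B C
    obtain ⟨K, N₀, h⟩ := Pool.Agent.X10.ST.thin_general p B' (C + 1) U ε hε hε1
    refine ⟨K, N₀ + N1, fun N hN x hx1 hx2 c hc r => ?_⟩
    obtain ⟨h3, h4⟩ := h1 N (by omega) x hx1 hx2 c hc
    refine le_trans ?_ (h N (by omega) x (fun m => c + f.eval (m : ℤ)) h3 h4 r)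
    exact_mod_cast bad_le N _ x _ (3 / 4 + ε) (1 / Real.log N ^ U) r

end Pool.Agent.Results.MP_711652_nt.FewThinTranslates
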