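import Pool.Agent.X10.ST.LogT2

set_option autoImplicit false

/-!
# Translates of the primes by a set of logarithmic size: all gaps below any multiple of the average gap

The question asks for a prime in every interval of a polylogarithmic length. We show that the sumset `P + T` has an element
in every interval `(n - κ log n, n]`, where `κ > 0` is arbitrary, for a suitable set `T` with only `O(log x)` elements up to
`x`; even a positive proportion of the elements `t` of `T` up to `n` is such that a prime lies in `(n - t - κ log n, n - t]`.

Proof. By Hoheisel's theorem and a sieve bound for pairs of close primes a positive proportion of the integers `t` of every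
interval `(Y, 2Y]` with `n ^ θ ≤ Y ≤ n / 4` has a prime in `(n - t - κ log n, n - t]`. So if a bounded number of elements of
`T` is chosen at random in every dyadic interval, the number of successes for a given `n` has exponential concentration in
`log n`, and the choices can be made in groups of dyadic intervals, each group for the `n` of one range.
-/

namespace Pool.Agent.Results.MP_711652_nt.LogarithmicTranslates

/-- For every `κ > 0` there are constants `C`, `c > 0` and a set `T` of natural numbers with at most `C log x` elements in
`[1, x]`, for all `x ≥ 2`, such that for all sufficiently large `n` at least `c log n` elements `t ≤ n` of `T` have the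
property that there is a prime `p` with `n - κ log n < p + t ≤ n`. -/
theorem result (κ : ℝ) (hκ : 0 < κ) : ∃ (C c : ℝ) (T : Set ℕ), 0 < c ∧
    (∀ x : ℕ, 2 ≤ x → ((T ∩ Set.Icc 1 x).ncard : ℝ) ≤ C * Real.log x) ∧
    ∃ n₀ : ℕ, ∀ n : ℕ, n₀ ≤ n → c * Real.log n ≤
      (({t ∈ T | t ≤ n ∧ ∃ p : ℕ, p.Prime ∧ p + t ≤ n ∧ (n : ℝ) < p + t + κ * Real.log n}).ncard : ℝ) :=
  Pool.Agent.X10.ST.log_translates κ hκ

end Pool.Agent.Results.MP_711652_nt.LogarithmicTranslates
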