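import Pool.Agent.X30.Mom

set_option autoImplicit false

/-!
# High moments of the gaps between consecutive primes

The trivial lower bound (Hoelder's inequality and the prime number theorem) for the moment of order `κ`
of the length of the gap around a random integer of an interval is of the shape `(log X)^κ`. The theorem
multiplies it by `(c log κ)^κ`, for every `c < 1 / 2`, uniformly for `κ₀ ≤ κ ≤ log X log log X` and for all
intervals of length `X`.
-/

namespace Pool.Agent.Results.MP_711652_nt.MomentsOfPrimeGaps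

/-- the length `p_(j+1) - p_j` of the gap between consecutive primes with `p_j ≤ m < p_(j+1)`
(for `m ≥ 2`; it is `0` for `m = 0, 1`) -/
noncomputable def gapLength (m : ℕ) : ℕ :=
  Nat.nth Nat.Prime (Nat.primeCounting m) - Nat.nth Nat.Prime (Nat.primeCounting m - 1)

theorem result : ∀ c : ℝ, 0 < c → c < 1 / 2 →
    ∃ κ₀ X₀ : ℝ, ∀ X M : ℕ, X₀ ≤ X → ∀ κ : ℝ, κ₀ ≤ κ →
      κ ≤ Real.log X * Real.log (Real.log X) →
      (X : ℝ) * (c * (Real.log X * Real.log κ)) ^ κ ≤
        ∑ m ∈ Finset.Ioc M (M + X), (gapLength m : ℝ) ^ κ :=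
  fun c hc hc2 => Pool.Agent.X30.Mom.moments c hc hc2

end Pool.Agent.Results.MP_711652_nt.MomentsOfPrimeGaps
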