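import Pool.Agent.Results.MP_711652_nt.ThinTranslates
import Pool.Agent.X31.F3

/-!
# Primes at a distance of at most a power of the logarithm, on the translates of arbitrary sets by all the integers near
# the values of generalised polynomials

`f(t) = ∑ u_x t ^ x` is an arbitrary finite real combination of real powers of `t` with a positive largest exponent `c`
(for instance `t ^ {3/2}`, `√2 t ^ 3 + t`). For almost all elements `n` of an ARBITRARY dense set `M ⊆ {1, ..., Y}`,
`Y ^ c ≈ N` (for instance: the primes), ALL integers `b` with `|b - (b₀ + f(n))| ≤ log ^ D N` are such that on the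
translate `A + b` of an arbitrary dense set `A ⊆ {1, ..., N}` the intervals of a length of at least `(log N) ^ K` to the
right of the points contain the expected number of primes on average, and at least `ε` times this number for a
proportion of at least `1 / 4 - ε` of the points.

The bound for the real additive energy of all generalised polynomials is from `Pool.Agent.X31` (`gp_EB`, in this
run); the theorem for families of small energy is in the starting files (`MP_711652_nt.ThinTranslates`).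
-/

set_option autoImplicit false

namespace Pool.Agent.Results.MP_711652_nt.NearGeneralisedPolynomials

open Finset

/-- the generalised polynomial with the exponents `x ∈ F` and the coefficients `u x` -/
noncomputable def f (F : Finset ℝ) (u : ℝ → ℝ) (t : ℝ) : ℝ := ∑ x ∈ F, u x * t ^ x

/-- The number of the primes in `(n, n + y]`. -/
def primesIn (n y : ℕ) : ℕ := ((Ioc n (n + y)).filter Nat.Prime).card

open Classical in
/-- The translate `A + b` has good points: for all integers `y` with `(log N) ^ K ≤ y ≤ N` the average of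
`primesIn (a + b) y` over the `a ∈ A` differs from `y / log N` by at most `ε y / log N`, and at least
`(1 / 4 - ε) |A|` elements `a` of `A` have at least `ε y / log N` primes in `(a + b, a + b + y]`. -/
noncomputable def Good (ε : ℝ) (K N : ℕ) (A : Finset ℕ) (b : ℕ) : Prop :=
  ∀ y : ℕ, Real.log N ^ K ≤ y → y ≤ N →
    |(∑ a ∈ A, (primesIn (a + b) y : ℝ)) * Real.log N - A.card * y| ≤ ε * (A.card * y) ∧
    (1 / 4 - ε) * A.card ≤ ((A.filter fun a => ε * y ≤ (primesIn (a + b) y : ℝ) * Real.log N).card : ℝ)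

/-- Let `F` be a finite set of real numbers with the maximum `c > 0`, `u c ≠ 0`, and `f(t) = ∑_{x ∈ F} u x * t ^ x`. Let
`D`, `U` be natural numbers and `0 < ε ≤ 1 / 4`. There is a `K` such that for all `N ≥ K`, all `Y` with
`N / log ^ D N ≤ Y ^ c ≤ N`, EVERY set `M ⊆ {1, ..., Y}` with at least `Y / log ^ D N` elements, every real number `b₀` with
`|b₀| ≤ N` and EVERY set `A ⊆ {1, ..., N}` with at least `N / log ^ D N` elements: for all but at most `#M / log ^ U N`
elements `n` of `M`, ALL integers `b` with `1 ≤ b ≤ N` and `|b - (b₀ + f(n))| ≤ log ^ D N` satisfy `Good ε K N A b`. -/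
theorem result (F : Finset ℝ) (u : ℝ → ℝ) (c : ℝ) (hcF : c ∈ F) (hmax : ∀ x ∈ F, x ≤ c)
    (huc : u c ≠ 0) (hc : 0 < c) (D U : ℕ) (ε : ℝ) (hε : 0 < ε) (hε1 : ε ≤ 1 / 4) :
    ∃ K : ℕ, ∀ N : ℕ, K ≤ N → ∀ Y : ℕ, (N : ℝ) / Real.log N ^ D ≤ (Y : ℝ) ^ c → (Y : ℝ) ^ c ≤ N →
      ∀ M : Finset ℕ, M ⊆ Icc 1 Y → (Y : ℝ) / Real.log N ^ D ≤ M.card → ∀ b₀ : ℝ, |b₀| ≤ N →
      ∀ A : Finset ℕ, A ⊆ Icc 1 N → (N : ℝ) / Real.log N ^ D ≤ (A.card : ℝ) →
      ∃ E : Finset ℕ, (E.card : ℝ) ≤ M.card / Real.log N ^ U ∧ ∀ n ∈ M, n ∉ E →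
        ∀ b : ℕ, 1 ≤ b → b ≤ N → |(b : ℝ) - (b₀ + f F u n)| ≤ Real.log N ^ D → Good ε K N A b := by
  classical
  obtain ⟨h, hh, h1⟩ := Pool.Agent.X31.gp_enum F u c hcF hmax huc hc
  obtain ⟨C, B, N₁, h1⟩ := h1 h le_rfl D
  obtain ⟨K₀, h2⟩ := Pool.Agent.Results.MP_711652_nt.ThinTranslates.general h B (max C D) U ε hε hε1
  refine ⟨K₀ + N₁ + 3, fun N hN Y hY1 hY2 M hM hMc b₀ hb₀ A hA hAc => ?_⟩
  have hlog1 : 1 ≤ Real.log N := by
    rw [Real.le_log_iff_exp_le (by exact_mod_cast (by omega : 0 < N))]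
    have : (3 : ℝ) ≤ N := by exact_mod_cast (by omega : 3 ≤ N)
    linarith [Real.exp_one_lt_d9]
  have hlog0 : 0 < Real.log N := by linarith
  obtain ⟨E, hE⟩ : ∃ E : Finset ℕ, E = M.filter (fun n : ℕ => ∃ b : ℕ, 1 ≤ b ∧ b ≤ N ∧
      |(b : ℝ) - (b₀ + f F u n)| ≤ Real.log N ^ D ∧ ¬ Good ε (K₀ + N₁ + 3) N A b) := ⟨_, rfl⟩
  refine ⟨E, ?_, ?_⟩
  swap
  · intro n hn hnE b hb1 hb2 hb3
    by_contra hcon
    apply hnE
    rw [hE]
    exact mem_filter.2 ⟨hn, b, hb1, hb2, hb3, hcon⟩
  have hch : ∀ n ∈ E, ∃ b : ℕ, 1 ≤ b ∧ b ≤ N ∧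
      |(b : ℝ) - (b₀ + f F u n)| ≤ Real.log N ^ D ∧ ¬ Good ε (K₀ + N₁ + 3) N A b := by
    intro n hn
    rw [hE] at hn
    exact (mem_filter.1 hn).2
  choose! r hr using hch
  obtain ⟨s, φ, g1, g2, g3, g4, g5⟩ := h1 N (by omega) Y hY2 hY1 M hM hMc b₀ hb₀ E
    (fun n => (r n : ℤ)) (by rw [hE]; exact filter_subset _ _) (by
      intro n hn
      have := (hr n hn).2.2.1
      unfold f at this
      unfold Pool.Agent.X31.gp
      push_cast
      exact this)
  have key := h2 N (by omega) M.card s g4 (by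
      refine le_trans g5 ?_
      apply mul_le_mul_of_nonneg_right _ (by positivity)
      exact pow_le_pow_right₀ hlog1 (le_max_left _ _)) A hA (by
      refine le_trans ?_ hAc
      apply div_le_div_of_nonneg_left (Nat.cast_nonneg _) (by positivity)
      exact pow_le_pow_right₀ hlog1 (le_max_right _ _))
  refine le_trans ?_ key
  unfold Pool.Agent.Results.MP_711652_nt.ThinTranslates.num
  apply Nat.cast_le.2
  rw [← card_image_of_injOn g1]
  apply card_le_card
  intro j hj
  obtain ⟨n, hn, rfl⟩ := mem_image.1 hj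
  obtain ⟨k1, k2, k3, k4⟩ := hr n hn
  have hmem : ∀ (P : ℕ → Prop) (x j : ℕ), j ∈ Icc 1 x → P j →
      j ∈ @filter ℕ P (fun a => Classical.propDecidable (P a)) (Icc 1 x) := by
    intro P x j q1 q2
    exact (@mem_filter ℕ P (fun a => Classical.propDecidable (P a)) (Icc 1 x) j).2 ⟨q1, q2⟩
  refine hmem _ _ _ (g2 n hn) ⟨?_, ?_, ?_⟩
  · rw [g3 n hn]
    exact_mod_cast k1
  · rw [g3 n hn]
    exact_mod_cast k2
  · rw [g3 n hn, Int.toNat_natCast]
    intro hG
    apply k4
    intro y hy1 hy2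
    have hy1' : Real.log N ^ K₀ ≤ y := (pow_le_pow_right₀ hlog1 (by omega)).trans hy1
    exact hG y hy1' hy2

end Pool.Agent.Results.MP_711652_nt.NearGeneralisedPolynomials
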